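import Pool.Agent.K9h73.MN.Red
import Pool.Agent.K9h73.DL.Eig
import Pool.Agent.H648R4.Nilp
import Pool.Agent.H785R3.GrowthR

/-!
# Lifting from the quotient by the second derived subgroup of `M`
-/

set_option autoImplicit false

namespace Pool.Agent.K9h73.MN

open Pool.Agent.N600.G3 (Crossed AA AA_map f_one finite_pow prod_mem_pow card_map_pow one_le_card)
open Pool.Agent.K9h38.GG
open Pool.Agent.K9h73.DL (hF SV fg_of_map conjAb eig fin_of_map)
open Pool.Agent
open scoped Pointwise commutatorElement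
open Subgroup
open Pool.Agent.Helper111.EN.NSc (NS NS_ext NS_of_nilpotent_fg NS_top_iff)

universe u

/-- `M / M''` is virtually nilpotent; if `M'` is nilpotent then `M` is virtually nilpotent -/
def Exc (M : Type*) [Group M] : Prop :=
  Group.IsVirtuallyNilpotent (M ⧸ derivedSeries M 2) ∧
    (Group.IsNilpotent (commutator M) → Group.IsVirtuallyNilpotent M)

lemma der2 (M : Type*) [Group M] : derivedSeries M 2 = ⁅commutator M, commutator M⁆ := by
  rw [derivedSeries_succ, derivedSeries_one]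

lemma map_comm_surj {M M' : Type*} [Group M] [Group M'] (φ : M →* M')
    (hφ : Function.Surjective φ) : (commutator M).map φ = commutator M' := by
  rw [_root_.commutator_def, map_commutator, map_top_of_surjective _ hφ, ← _root_.commutator_def]

/-- the virtually nilpotent case -/
theorem exc_of_sv {M M' : Type u} [Group M] [Group M'] (φ : M →* M')
    (hφ : Function.Surjective φ) (hker : φ.ker = derivedSeries M 2) (h : SV M') : Exc M := by
  obtain ⟨L, hLn, hLf, hL, hLnil⟩ := h
  let N : Subgroup M := commutator M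
  let L2 : Subgroup M := L.comap φ
  have hL2n : L2.Normal := hLn.comap _
  have hL2f : L2.FiniteIndex :=
    ⟨by
      show (L.comap φ).index ≠ 0
      rw [index_comap_of_surjective _ hφ]
      exact hLf.index_ne_zero⟩
  have hNL : N ≤ L2 := by
    intro x hx
    apply hL
    rw [← map_comm_surj φ hφ]
    exact ⟨x, hx, rfl⟩
  obtain ⟨n, hn⟩ := (Subgroup.isNilpotent_iff_lowerCentralSeries L).1 hLnil
  have h1 : L2.lowerCentralSeries n ≤ derivedSeries M 2 := by
    intro a ha
    have h2 := H785R3.GrowthA.lcs_map φ L2 L (map_comap_le _ _) n (mem_map_of_mem _ ha)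
    rw [hn, Subgroup.mem_bot] at h2
    rw [← hker]
    exact h2
  refine ⟨?_, fun hnil => ?_⟩
  · -- the quotient
    let π : M →* M ⧸ derivedSeries M 2 := QuotientGroup.mk' _
    have hπ : Function.Surjective π := QuotientGroup.mk'_surjective _
    refine ⟨L2.map π, ?_, ?_⟩
    · refine (Subgroup.isNilpotent_iff_lowerCentralSeries _).2 ⟨n, ?_⟩
      rw [← Subgroup.map_lowerCentralSeries, Subgroup.map_eq_bot_iff, QuotientGroup.ker_mk']
      exact h1
    · refine ⟨?_⟩
      intro h0
      apply hL2f.index_ne_zero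
      have h6 : derivedSeries M 2 ≤ L2 := by
        rw [← hker]
        intro x hx
        show φ x ∈ L
        rw [(MonoidHom.mem_ker).1 hx]
        exact one_mem _
      rw [← h0]
      exact (index_map_eq _ hπ (by rw [QuotientGroup.ker_mk']; exact h6)).symm
  · obtain ⟨c, hc⟩ := (Subgroup.isNilpotent_iff_lowerCentralSeries N).1 hnil
    rw [der2] at h1
    obtain ⟨m, hm⟩ := H648R4.hall hNL hc h1
    exact ⟨L2, (Subgroup.isNilpotent_iff_lowerCentralSeries L2).2 ⟨m, hm⟩, hL2f⟩

/-- the data for a general group -/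
def DataG {G : Type*} [Group G] (q : ℕ) (T : Set G) (M : Subgroup G) : Prop :=
  ∃ (K : ℕ) (t : Fin K → M) (γ : Fin K → ℂ) (g0 : Finset (Fin K))
    (f : commutator M →* Multiplicative ℂ),
    0 < K ∧ K ≤ 2 * g0.card ∧
    (∀ i, IsIntegral ℤ (γ i) ∧ IsIntegral ℤ (γ i)⁻¹ ∧ γ i ≠ 0) ∧
    (∀ i ∈ g0, ∀ m > 0, γ i ^ m ≠ 1) ∧
    (∃ x, (f x).toAdd ≠ 0) ∧
    (∀ i x, (f (MulAut.conjNormal (t i) x)).toAdd = γ i * (f x).toAdd) ∧
    Module.Finite ℤ (Additive (Abelianization (commutator M))) ∧
    ∀ R : ℕ, ∑ i ∈ g0, hF (fun r : Fin R => γ i ^ (r : ℕ)) / 2 ≤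
      K * Real.log (Nat.card ↥(T ^ (q * R)))

/-- finiteness of `(M')^ab` -/
theorem fin_lift {M M' : Type u} [Group M] [Group M'] (φ : M →* M')
    (hφ : Function.Surjective φ) (hker : φ.ker = derivedSeries M 2) (h : (commutator M').FG) :
    Module.Finite ℤ (Additive (Abelianization (commutator M))) := by
  refine fin_of_map (commutator M) (derivedSeries M 2) (der2 M) ?_
  let e1 : M ⧸ φ.ker ≃* M' := QuotientGroup.quotientKerEquivOfSurjective φ hφ
  let e2 : M ⧸ φ.ker ≃* M ⧸ derivedSeries M 2 := QuotientGroup.quotientMulEquivOfEq hker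
  let ψ : M' →* M ⧸ derivedSeries M 2 := (e1.symm.trans e2).toMonoidHom
  have hψ : ∀ x : M, ψ (φ x) = QuotientGroup.mk' (derivedSeries M 2) x := by
    intro x
    show e2 (e1.symm (φ x)) = _
    have h1 : e1.symm (φ x) = QuotientGroup.mk x := by
      rw [MulEquiv.symm_apply_eq]
      rfl
    rw [h1]
    rfl
  have h2 : (commutator M).map (QuotientGroup.mk' (derivedSeries M 2)) =
      (commutator M').map ψ := by
    rw [← map_comm_surj φ hφ, map_map]
    congr 1
    ext x
    exact (hψ x).symm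
  rw [h2]
  exact Pool.Agent.TH555.FG.fg_map ψ h

theorem data_lift {G : Type u} [Group G] (q : ℕ) (T : Set G) (hfin : T.Finite) (h1T : 1 ∈ T)
    (M D : Subgroup G) [M.Normal] [D.Normal]
    (hker : ((QuotientGroup.mk' D).subgroupMap M).ker = derivedSeries M 2)
    (hNS : NS (⊤ : Subgroup (G ⧸ D)))
    (h : Data q (QuotientGroup.mk' D '' T) (M.map (QuotientGroup.mk' D))) :
    DataG q T M := by
  classical
  set π := QuotientGroup.mk' D with hπ
  set M' : Subgroup (G ⧸ D) := M.map π with hM'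
  obtain ⟨χ, f, K, t, g0, hf1, hf2, ⟨y0, hy0, hfy0⟩, hint, hK, hKg, htors, hR⟩ := h
  let φ : M →* M' := π.subgroupMap M
  have hφ : Function.Surjective φ := π.subgroupMap_surjective M
  choose s hs using fun i => hφ (t i)
  have hν : ∀ x : commutator M, φ x ∈ commutator M' := by
    intro x
    rw [← map_comm_surj φ hφ]
    exact ⟨x, x.2, rfl⟩
  have hf_one : f 1 = 0 := by
    have := hf1 1 (one_mem _) 1 (one_mem _)
    rw [mul_one] at this
    simpa using this
  let F : commutator M →* Multiplicative ℂ :=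
    { toFun := fun x => Multiplicative.ofAdd (f (φ x))
      map_one' := by
        show Multiplicative.ofAdd (f (φ 1)) = 1
        rw [map_one, hf_one]; rfl
      map_mul' := fun x y => by
        show Multiplicative.ofAdd (f (φ ((x : M) * y))) = _
        rw [map_mul, hf1 _ (hν x) _ (hν y)]; rfl }
  have hval : ∀ m : M', (χ m : ℂ)⁻¹ = (χ m⁻¹ : ℂ) := by
    intro m
    rw [map_inv, Units.val_inv_eq_inv_val]
  refine ⟨K, s, fun i => (χ (t i) : ℂ), g0, F, hK, hKg, ?_, htors, ?_, ?_, ?_, ?_⟩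
  · intro i
    refine ⟨hint _, ?_, Units.ne_zero _⟩
    rw [hval]
    exact hint _
  · rw [← map_comm_surj φ hφ] at hy0
    obtain ⟨x, hx, hxy⟩ := hy0
    refine ⟨⟨x, hx⟩, ?_⟩
    show f (φ x) ≠ 0
    rw [hxy]
    exact hfy0
  · intro i x
    show f (φ ((s i) * (x : M) * (s i)⁻¹)) = χ (t i) * f (φ x)
    rw [map_mul, map_mul, map_inv, hs, hf2 _ _ (hν x)]
  · exact fin_lift φ hφ hker (fg_of_map _ (hNS _ le_top))
  · intro R
    refine (hR R).trans ?_
    refine mul_le_mul_of_nonneg_left ?_ (Nat.cast_nonneg K)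
    have h1 := card_map_pow π T hfin (q * R)
    have h2 := one_le_card (hfin.image π) ⟨1, h1T, map_one _⟩ (q * R)
    apply Real.log_le_log
    · exact_mod_cast h2
    · exact_mod_cast h1

/-- **the general trichotomy** -/
theorem tri {G : Type u} [Group G] (T : Set G) (hfin : T.Finite) (h1T : 1 ∈ T)
    (hinv : T⁻¹ = T) (hgen : closure T = ⊤) (k : ℕ) (hk : 0 < k) (M : Subgroup G) [hMn : M.Normal]
    (hM : M = (⊤ : Subgroup G).lowerCentralSeries k) :
    (∀ n : ℕ, 2 ^ n ≤ (Nat.card ↥(T ^ n)) ^ (216 * 2 ^ k)) ∨ Exc M ∨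
      DataG (54 * 2 ^ k) T M := by
  let D : Subgroup G := ⁅⁅M, M⁆, ⁅M, M⁆⁆
  let π : G →* G ⧸ D := QuotientGroup.mk' D
  have hπ : Function.Surjective π := QuotientGroup.mk'_surjective D
  have hgen' : closure (π '' T) = ⊤ := by
    rw [← MonoidHom.map_closure, hgen, ← MonoidHom.range_eq_map]
    exact MonoidHom.range_eq_top.2 hπ
  have hinv' : (π '' T)⁻¹ = π '' T := by
    rw [← Set.image_inv, hinv]
  have h1' : (1 : G ⧸ D) ∈ π '' T := ⟨1, h1T, map_one π⟩
  have hMn' : (M.map π).Normal := Normal.map hMn π hπ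
  have hM' : M.map π = (⊤ : Subgroup (G ⧸ D)).lowerCentralSeries k :=
    (congrArg (Subgroup.map π) hM).trans (K9h38.GG.lcs_map hπ k).symm
  have hbot : ⁅⁅M.map π, M.map π⁆, ⁅M.map π, M.map π⁆⁆ = (⊥ : Subgroup (G ⧸ D)) := by
    rw [← map_commutator, ← map_commutator, eq_bot_iff]
    rintro _ ⟨x, hx, rfl⟩
    rw [Subgroup.mem_bot]
    exact (QuotientGroup.eq_one_iff x).2 hx
  have habel : ∀ x ∈ commutator (M.map π), ∀ y ∈ commutator (M.map π), x * y = y * x := by
    intro x hx y hy
    have hms := (map_subtype_commutator (M.map π)).le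
    have hx' : (x : G ⧸ D) ∈ ⁅M.map π, M.map π⁆ := hms ⟨x, hx, rfl⟩
    have hy' : (y : G ⧸ D) ∈ ⁅M.map π, M.map π⁆ := hms ⟨y, hy, rfl⟩
    have h1 : ⁅(x : G ⧸ D), (y : G ⧸ D)⁆ ∈ ⁅⁅M.map π, M.map π⁆, ⁅M.map π, M.map π⁆⁆ :=
      commutator_mem_commutator hx' hy'
    rw [hbot, Subgroup.mem_bot, commutatorElement_eq_one_iff_mul_comm] at h1
    exact Subtype.ext h1
  have hker : (π.subgroupMap M).ker = derivedSeries M 2 := by
    have h1 : (derivedSeries M 2).map M.subtype = D := by
      rw [der2, map_commutator, map_subtype_commutator]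
    ext x
    rw [MonoidHom.mem_ker]
    constructor
    · intro hx
      have h2 : π (x : G) = 1 := congrArg Subtype.val hx
      have h3 : (x : G) ∈ D := (QuotientGroup.eq_one_iff _).1 h2
      rw [← h1] at h3
      obtain ⟨y, hy, hyx⟩ := h3
      rwa [← (Subtype.ext hyx : y = x)]
    · intro hx
      apply Subtype.ext
      show π (x : G) = 1
      refine (QuotientGroup.eq_one_iff _).2 ?_
      rw [← h1]
      exact ⟨x, hx, rfl⟩
  rcases core (π '' T) (hfin.image π) h1' hinv' hgen' k hk (M.map π) hM' habel with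
    h | ⟨hNS, h | h⟩
  · left
    intro n
    exact (h n).trans (Nat.pow_le_pow_left (card_map_pow π T hfin n) _)
  · right; left
    exact exc_of_sv (π.subgroupMap M) (π.subgroupMap_surjective M) hker h
  · right; right
    exact data_lift _ T hfin h1T M D hker hNS h

end Pool.Agent.K9h73.MN
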