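import Pool.Agent.K9h73.MN.Tha
import Pool.Agent.K9h73.DL.Red
import Pool.Agent.K9h73.DL.Core
import Pool.Agent.K9h38.GG.Main

/-!
# The polycyclic case
-/

set_option autoImplicit false

namespace Pool.Agent.K9h73.MN

open Pool.Agent.N600.G3 (Crossed AA AA_map f_one finite_pow prod_mem_pow card_map_pow one_le_card)
open Pool.Agent.K9h38.GG
open Pool.Agent.K9h73.DL (hF hF_map alg_char fin_iff SV fg_of_map)
open Pool.Agent
open scoped Pointwise commutatorElement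
open Subgroup
open Pool.Agent.H785R3.GrowthA (NoFree)
open Pool.Agent.Helper111.EN.NSc (NS NS_ext NS_of_nilpotent_fg NS_top_iff)

universe u

/-- the data given by the proof -/
def Data {G : Type*} [Group G] (q : ℕ) (T : Set G) (M : Subgroup G) : Prop :=
  ∃ (χ : M →* ℂˣ) (f : M → ℂ) (K : ℕ) (t : Fin K → M) (g0 : Finset (Fin K)),
    (∀ x ∈ commutator M, ∀ y ∈ commutator M, f (x * y) = f x + f y) ∧
    (∀ m, ∀ x ∈ commutator M, f (m * x * m⁻¹) = (χ m : ℂ) * f x) ∧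
    (∃ x ∈ commutator M, f x ≠ 0) ∧
    (∀ m, IsIntegral ℤ (χ m : ℂ)) ∧
    0 < K ∧ K ≤ 2 * g0.card ∧ (∀ i ∈ g0, ∀ m > 0, (χ (t i) : ℂ) ^ m ≠ 1) ∧
    ∀ R : ℕ, ∑ i ∈ g0, hF (fun r : Fin R => (χ (t i) : ℂ) ^ (r : ℕ)) / 2 ≤
      K * Real.log (Nat.card ↥(T ^ (q * R)))

theorem red {G : Type u} [Group G] (T : Set G) (hfin : T.Finite) (h1T : 1 ∈ T) (hT : T⁻¹ = T)
    (hgen : closure T = ⊤) (k : ℕ) (hk : 0 < k) (M : Subgroup G) [M.Normal]
    (hM1 : M ≤ normalClosure (SS T k)) (hM2 : ∀ x ∈ SS T k, x ∈ M) (hFG : M.FG)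
    (habel : ∀ x ∈ commutator M, ∀ y ∈ commutator M, x * y = y * x)
    (hN : (commutator M).FG) :
    SV M ∨ Data (54 * 2 ^ k) T M := by
  have : Group.FG M := (Group.fg_iff_subgroup_fg _).2 hFG
  rcases alg_char M habel hN with h | ⟨F, iF, τ, χ, f, hf1, hf2, ⟨x0, hx0, hfx0⟩,
    ⟨m0, hm0⟩, hint⟩
  · exact Or.inl h
  right
  -- a short commutator
  have hex : ∃ (g : G) (c : M), (c : G) ∈ SS T k ∧ ¬ IsOfFinOrder (χ (cj M g c)) := by
    by_contra hcon
    push Not at hcon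
    let Q : Subgroup G :=
      { carrier := {x | ∃ hx : x ∈ M, ∀ g : G, IsOfFinOrder (χ (cj M g ⟨x, hx⟩))}
        mul_mem' := by
          rintro a b ⟨ha, ha'⟩ ⟨hb, hb'⟩
          refine ⟨mul_mem ha hb, fun g => ?_⟩
          have : (⟨a * b, mul_mem ha hb⟩ : M) = ⟨a, ha⟩ * ⟨b, hb⟩ := rfl
          rw [this, map_mul, map_mul]
          exact (ha' g).mul (hb' g)
        one_mem' := by
          refine ⟨one_mem _, fun g => ?_⟩
          have : (⟨1, one_mem _⟩ : M) = 1 := rfl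
          rw [this, map_one, map_one]
          exact IsOfFinOrder.one
        inv_mem' := by
          rintro a ⟨ha, ha'⟩
          refine ⟨inv_mem ha, fun g => ?_⟩
          have : (⟨a⁻¹, inv_mem ha⟩ : M) = (⟨a, ha⟩ : M)⁻¹ := rfl
          rw [this, map_inv, map_inv]
          exact (ha' g).inv }
    have hQn : Q.Normal := by
      refine ⟨?_⟩
      rintro a ⟨ha, ha'⟩ h
      refine ⟨Normal.conj_mem inferInstance a ha h, fun g => ?_⟩
      have e : (⟨h * a * h⁻¹, Normal.conj_mem inferInstance a ha h⟩ : M) =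
          cj M h ⟨a, ha⟩ := rfl
      rw [e, cj_cj]
      exact ha' (g * h)
    have hle : M ≤ Q := by
      refine hM1.trans (normalClosure_le_normal ?_)
      intro x hx
      exact ⟨hM2 x hx, fun g => hcon g ⟨x, hM2 x hx⟩ hx⟩
    obtain ⟨hm, hm'⟩ := hle m0.2
    have h1 := hm' 1
    rw [cj_one] at h1
    exact (fin_iff _).2 hm0 h1
  obtain ⟨g, c, hc, hvc⟩ := hex
  let χ' : M →* Fˣ := χ.comp (cj M g)
  let f' : M → F := fun x => f (cj M g x)
  have hf1' : ∀ x ∈ commutator M, ∀ y ∈ commutator M, f' (x * y) = f' x + f' y := by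
    intro x hx y hy
    show f (cj M g (x * y)) = _
    rw [map_mul, hf1 _ (cj_comm_mem g hx) _ (cj_comm_mem g hy)]
  have hf2' : ∀ m, ∀ x ∈ commutator M, f' (m * x * m⁻¹) = (χ' m : F) * f' x := by
    intro m x hx
    show f (cj M g (m * x * m⁻¹)) = _
    rw [map_mul, map_mul, map_inv, hf2 _ _ (cj_comm_mem g hx)]
    rfl
  have hcm : ∀ m, c * m * c⁻¹ * m⁻¹ ∈ commutator M := fun m =>
    commutator_mem_commutator (mem_top c) (mem_top m)
  have hcr : Crossed χ' (fun m => f' (c * m * c⁻¹ * m⁻¹)) := by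
    intro m m'
    have e : c * (m * m') * c⁻¹ * (m * m')⁻¹ =
        (c * m * c⁻¹ * m⁻¹) * (m * (c * m' * c⁻¹ * m'⁻¹) * m⁻¹) := by group
    show f' (c * (m * m') * c⁻¹ * (m * m')⁻¹) = _
    rw [e, hf1' _ (hcm m) _ (Normal.conj_mem inferInstance _ (hcm m') m), hf2' _ _ (hcm m')]
  have h1x : cj M g⁻¹ x0 ∈ commutator M := cj_comm_mem _ hx0
  have h2x : f' (cj M g⁻¹ x0) = f x0 := by
    show f (cj M g (cj M g⁻¹ x0)) = _
    rw [cj_cj, mul_inv_cancel, cj_one]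
  have hχc : ∀ m > 0, (χ' c) ^ m ≠ 1 := (fin_iff _).1 hvc
  obtain ⟨K, t, g0, hK, hKg, htg, hR⟩ := tha T hfin h1T hT hgen k hk M hM1 hM2 F χ'
    (fun m => f' (c * m * c⁻¹ * m⁻¹)) hcr c hc (by
      show f' (c * c * c⁻¹ * c⁻¹) = 0
      have e : c * c * c⁻¹ * c⁻¹ = 1 := by group
      rw [e]
      show f (cj M g 1) = 0
      rw [map_one]
      exact f_one hf1) hχc (by
      refine ⟨cj M g⁻¹ x0, ?_⟩
      show f' (c * cj M g⁻¹ x0 * c⁻¹ * (cj M g⁻¹ x0)⁻¹) ≠ 0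
      rw [hf1' _ (Normal.conj_mem inferInstance _ h1x c) _ (inv_mem h1x), hf2' _ _ h1x]
      have h3 : f' ((cj M g⁻¹ x0)⁻¹) = - f' (cj M g⁻¹ x0) := by
        have h4 := hf1' _ h1x _ (inv_mem h1x)
        rw [mul_inv_cancel] at h4
        have h5 : f' 1 = 0 := by
          show f (cj M g 1) = 0
          rw [map_one]
          exact f_one hf1
        rw [h5] at h4
        exact (eq_neg_of_add_eq_zero_right h4.symm)
      rw [h3, h2x]
      have h6 : (χ' c : F) * f x0 + -f x0 = ((χ' c : F) - 1) * f x0 := by ring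
      rw [h6]
      refine mul_ne_zero (sub_ne_zero.2 ?_) hfx0
      intro h7
      apply hχc 1 Nat.one_pos
      rw [pow_one]
      exact Units.ext h7)
  refine ⟨(Units.map (τ : F →* ℂ)).comp χ', fun x => τ (f' x), K, t, g0, ?_, ?_, ?_, ?_, hK, hKg,
    ?_, ?_⟩
  · intro x hx y hy
    show τ (f' (x * y)) = τ (f' x) + τ (f' y)
    rw [hf1' x hx y hy, map_add]
  · intro m x hx
    show τ (f' (m * x * m⁻¹)) = τ (χ' m : F) * τ (f' x)
    rw [hf2' m x hx, map_mul]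
  · refine ⟨cj M g⁻¹ x0, h1x, ?_⟩
    show τ (f' (cj M g⁻¹ x0)) ≠ 0
    rw [h2x]
    exact (map_ne_zero τ).2 hfx0
  · intro m
    exact hint (cj M g m)
  · intro i hi m hm h
    apply htg i hi m hm
    apply Units.ext
    apply τ.injective
    have h1 : τ (χ' (t i) : F) ^ m = 1 := h
    rw [Units.val_pow_eq_pow_val, map_pow, h1, Units.val_one, map_one]
  · intro R
    refine le_trans (le_of_eq ?_) (hR R)
    refine Finset.sum_congr rfl fun i _ => ?_
    have h1 := hF_map τ (R := R) (χ' (t i) : F)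
    show hF (fun r : Fin R => (τ (χ' (t i) : F)) ^ (r : ℕ)) / 2 = _
    rw [h1]

/-- the trichotomy when `γ_{k+1}(G)` is metabelian -/
theorem core {G : Type u} [Group G] (T : Set G) (hfin : T.Finite) (h1T : 1 ∈ T)
    (hinv : T⁻¹ = T) (hgen : closure T = ⊤) (k : ℕ) (hk : 0 < k) (M : Subgroup G) [M.Normal]
    (hM : M = (⊤ : Subgroup G).lowerCentralSeries k)
    (habel : ∀ x ∈ commutator M, ∀ y ∈ commutator M, x * y = y * x) :
    (∀ n : ℕ, 2 ^ n ≤ (Nat.card ↥(T ^ n)) ^ (216 * 2 ^ k)) ∨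
      (NS (⊤ : Subgroup G) ∧ (SV M ∨ Data (54 * 2 ^ k) T M)) := by
  rcases K9h38.GG.core T hfin h1T hinv hgen k hk M hM habel with h | h
  · exact Or.inl h
  right
  refine ⟨h, ?_⟩
  have hFG : M.FG := h _ le_top
  have hN : (commutator M).FG := fg_of_map _ (h _ le_top)
  exact red T hfin h1T hinv hgen k hk M (by rw [hM]; exact lcs_le hgen k)
    (fun x hx => by rw [hM]; exact SS_sub_lcs k x hx) hFG habel hN

/-- consequences for the growth -/
theorem growth_of_data {G : Type*} [Group G] {T : Set G} {K q : ℕ} {g0 : Finset (Fin K)}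
    (hK : 0 < K) (hKg : K ≤ 2 * g0.card) (γ : Fin K → ℂ) (R : ℕ) (L : ℝ) (hL : 0 ≤ L)
    (hg : ∀ i ∈ g0, L ≤ hF (fun r : Fin R => γ i ^ (r : ℕ)))
    (hR : ∑ i ∈ g0, hF (fun r : Fin R => γ i ^ (r : ℕ)) / 2 ≤
      K * Real.log (Nat.card ↥(T ^ (q * R)))) :
    L / 4 ≤ Real.log (Nat.card ↥(T ^ (q * R))) := by
  have h1 : (g0.card : ℝ) * (L / 2) ≤
      ∑ i ∈ g0, hF (fun r : Fin R => γ i ^ (r : ℕ)) / 2 := by
    rw [← nsmul_eq_mul, ← Finset.sum_const]
    refine Finset.sum_le_sum fun i hi => ?_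
    have := hg i hi
    linarith
  have hKR : (0 : ℝ) < K := by exact_mod_cast hK
  have hKg' : (K : ℝ) ≤ 2 * g0.card := by exact_mod_cast hKg
  have h2 : (K : ℝ) * (L / 4) ≤ K * Real.log (Nat.card ↥(T ^ (q * R))) := by
    refine le_trans ?_ (h1.trans hR)
    nlinarith
  exact le_of_mul_le_mul_left h2 hKR

end Pool.Agent.K9h73.MN
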