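import Pool.Agent.K9h38.GG.Growth
import Pool.Agent.K9h73.DL.Tha

/-!
# Growth from a crossed homomorphism on a term of the lower central series
-/

set_option autoImplicit false

namespace Pool.Agent.K9h73.MN

open Pool.Agent.N600.G3 (Crossed AA AA_map f_one finite_pow prod_mem_pow)
open Pool.Agent.N918.G3 (inv_mem_pow zeroSub crossed_one)
open Pool.Agent.K9h38.GG
open Pool.Agent.K9h73.DL (hF hF_map eps_tors cnt_thm)
open Pool.Agent
open scoped Pointwise commutatorElement
open Subgroup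

universe u

variable {G : Type u} [Group G]

/-- growth from a crossed homomorphism -/
theorem tha (T : Set G) (hfin : T.Finite) (h1T : 1 ∈ T) (hT : T⁻¹ = T)
    (hgen : closure T = ⊤) (k : ℕ) (hk : 0 < k) (M : Subgroup G) [M.Normal]
    (hM1 : M ≤ normalClosure (SS T k)) (hM2 : ∀ x ∈ SS T k, x ∈ M)
    (F : Type u) [Field F] (χ : M →* Fˣ) (b : M → F) (hb : Crossed χ b)
    (c : M) (hc : (c : G) ∈ SS T k) (hbc : b c = 0) (hχ : ∀ m > 0, (χ c) ^ m ≠ 1)
    (hne : ∃ m, b m ≠ 0) :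
    ∃ (K : ℕ) (t : Fin K → M) (g0 : Finset (Fin K)), 0 < K ∧ K ≤ 2 * g0.card ∧
      (∀ i ∈ g0, ∀ m > 0, (χ (t i)) ^ m ≠ 1) ∧
      ∀ R : ℕ, ∑ i ∈ g0, hF (fun r : Fin R => (χ (t i) : F) ^ (r : ℕ)) / 2 ≤
        K * Real.log (Nat.card ↥(T ^ (54 * 2 ^ k * R))) := by
  classical
  set J := ell (k - 1) with hJ
  set D := DD T k J with hD
  let Z : Subgroup G := (zeroSub hb).map M.subtype
  have memZ : ∀ x : M, (x : G) ∈ Z ↔ b x = 0 := by
    intro x
    constructor
    · rintro ⟨y, hy, hyx⟩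
      have : y = x := Subtype.ext hyx
      rw [← this]; exact hy
    · intro hx
      exact ⟨x, hx, rfl⟩
  have hZM : Z ≤ M := by
    rintro _ ⟨y, _, rfl⟩; exact y.2
  have hlev := lev hT h1T k
  have hDM : ∀ x ∈ D, x ∈ M := by
    rintro _ ⟨g, _, s, hs, rfl⟩
    exact Normal.conj_mem inferInstance _ (hM2 s hs) g
  have hDT : ∀ x ∈ D, x ∈ T ^ (ell k + 2 * J) := by
    rintro _ ⟨g, hg, s, hs, rfl⟩
    have e : ell k + 2 * J = J + ell k + J := by ring
    rw [e, pow_add, pow_add]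
    exact Set.mul_mem_mul (Set.mul_mem_mul hg (SS_sub hT k hs)) (inv_mem_pow hT hg)
  -- the initial state
  have hbad : ∃ κ ∈ KK T k 0, ∃ d ∈ D, ((1 : G) * κ) * d * ((1 : G) * κ)⁻¹ ∉ Z := by
    by_contra hcon
    push Not at hcon
    have hK : KK T k 0 = ⊤ := by
      rw [eq_top_iff, ← hgen]
      refine (closure_le _).2 ?_
      intro t ht
      exact subset_closure ⟨0, le_rfl, hk, ht⟩
    have hle : normalClosure (SS T k) ≤ Z := by
      rw [normalClosure, closure_le]
      intro x hx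
      rw [Group.mem_conjugatesOfSet_iff] at hx
      obtain ⟨s, hs, hsx⟩ := hx
      obtain ⟨g, hg⟩ := isConj_iff.1 hsx
      have := hcon g (by rw [hK]; trivial) s (SS_sub_DD h1T k J hs)
      rw [one_mul, hg] at this
      exact this
    obtain ⟨m, hm⟩ := hne
    exact hm ((memZ m).1 (hle (hM1 m.2)))
  have hst : St D (SS T) (KK T k) k Z 0 1 ⊥ := by
    refine ⟨bot_le, ?_, ?_, Or.inl rfl⟩
    · intro κ _ m hm
      rw [mem_bot] at hm ⊢
      rw [hm]; group
    · intro i _ _ s _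
      exact ⟨1, one_mem _, 1, one_mem _, 1, one_mem _, by group⟩
  have hcD : (c : G) ∈ D := SS_sub_DD h1T k J hc
  obtain ⟨L, hL⟩ := exists_sys hlev hT h1T ell (fun j _ => SS_sub hT j)
    (ℓ := ell k + 2 * J) hcD ((memZ c).2 hbc) k 0 (zero_add k) 1 ⊥ hst hbad
  set N := (ell k + 2 * J + 4 * ∑ i ∈ Finset.Ico 0 k, ell i) * L.length with hN
  have hN54 : 3 * N ≤ 54 * 2 ^ k * L.length := by
    have h1 := ell_eq k
    have h2 := ell_eq (k - 1)
    have h3 := sum_ell k
    have h4 : 2 ^ k = 2 * 2 ^ (k - 1) := by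
      conv_lhs => rw [show k = (k - 1) + 1 by omega, pow_succ]
      ring
    have h5 : 3 * (ell k + 2 * J + 4 * ∑ i ∈ Finset.Ico 0 k, ell i) ≤ 54 * 2 ^ k := by
      rw [hJ]; omega
    calc 3 * N = 3 * (ell k + 2 * J + 4 * ∑ i ∈ Finset.Ico 0 k, ell i) * L.length := by
          rw [hN]; ring
      _ ≤ _ := Nat.mul_le_mul_right _ h5
  have hlpos : 0 < L.length := List.length_pos_of_ne_nil hL.ne
  set n := L.length with hn
  let p : Fin n → G × G × G := fun j => L.get j
  have hp : ∀ j, p j ∈ L := fun j => List.get_mem L j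
  let d₀ : Fin n → M := fun j => ⟨(p j).2.2, hDM _ (hL.memD _ (hp j))⟩
  let χ' : Fin n → M →* Fˣ := fun i => χ.comp (cj M ((p i).1)⁻¹)
  let b' : Fin n → M → F := fun i m => b (cj M ((p i).1)⁻¹ m)
  let c' : Fin n → M := fun j => cj M (p j).1 c
  let d' : Fin n → M := fun j => cj M (p j).2.1 (d₀ j)
  have hb' : ∀ i, Crossed (χ' i) (b' i) := by
    intro i m m'
    show b (cj M ((p i).1)⁻¹ (m * m')) = b (cj M ((p i).1)⁻¹ m) +
      (χ (cj M ((p i).1)⁻¹ m) : F) * b (cj M ((p i).1)⁻¹ m')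
    rw [map_mul, hb]
  have e1 : ∀ i j, b' i (c' j) = 0 := by
    intro i j
    show b (cj M ((p i).1)⁻¹ (cj M (p j).1 c)) = 0
    rw [cj_cj, ← memZ, cj_coe]
    exact hL.cc rfl _ (hp i) _ (hp j)
  have e2 : ∀ i j, i < j → b' i (d' j) = 0 := by
    intro i j hij
    show b (cj M ((p i).1)⁻¹ (cj M (p j).2.1 (d₀ j))) = 0
    rw [cj_cj, ← memZ, cj_coe]
    have h1 := (List.pairwise_iff_get.1 hL.good) i j hij (d₀ j : G) (hL.memD _ (hp j))
    have e : ((p i).1)⁻¹ * (p j).2.1 = ((L.get i).1)⁻¹ * 1 * (L.get j).2.1 := by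
      show ((L.get i).1)⁻¹ * (L.get j).2.1 = _
      group
    rw [e]
    exact h1
  have e3 : ∀ i, b' i (d' i) ≠ 0 := by
    intro i
    show b (cj M ((p i).1)⁻¹ (cj M (p i).2.1 (d₀ i))) ≠ 0
    rw [cj_cj, Ne, ← memZ, cj_coe]
    have h1 := hL.bad _ (hp i)
    have e : ((p i).1)⁻¹ * (p i).2.1 = ((p i).1)⁻¹ * 1 * (p i).2.1 := by group
    rw [e]
    exact h1
  have e4 : ∀ i, ∀ m > 0, (χ' i (c' i)) ^ m ≠ 1 := by
    intro i m hm
    show (χ (cj M ((p i).1)⁻¹ (cj M (p i).1 c))) ^ m ≠ 1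
    rw [cj_cj, inv_mul_cancel, cj_one]
    exact hχ m hm
  obtain ⟨ε, hε⟩ := eps_tors n χ' c' e4
  have hgood : {i : Fin n | ∀ m > 0, (χ' i (AA c' ε)) ^ m ≠ 1}.Finite := Set.toFinite _
  have hone : ∀ m : ℕ, (1 : G) ∈ T ^ m := fun m => by simpa using Set.pow_mem_pow (n := m) h1T
  have hL1 : ∀ x : Fin n → Bool, ((AA c' x : M) : G) ∈ T ^ N := by
    intro x
    have h1 := AA_map M.subtype c' x
    show M.subtype _ ∈ _
    rw [h1]
    have h2 : AA (fun j => M.subtype (c' j)) x = cp (L.map (fun p => p.1))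
        (List.ofFn fun j : Fin L.length => if x j then (c : G) else 1) := by
      rw [cp_ofFn L (fun p => p.1)]
      unfold AA
      congr 2
      funext j
      by_cases hx : x j
      · simp only [hx, if_true]
        show ((cj M (p j).1 c : M) : G) = _
        rw [cj_coe]
      · simp only [hx]
        simp
    rw [h2]
    refine hL.trA _ (by simp) ?_
    intro e he
    rw [List.mem_ofFn] at he
    obtain ⟨j, rfl⟩ := he
    split_ifs
    · exact hDT _ hcD
    · exact hone _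
  have hL2 : ∀ x : Fin n → Bool, ((AA d' x : M) : G) ∈ T ^ N := by
    intro x
    have h1 := AA_map M.subtype d' x
    show M.subtype _ ∈ _
    rw [h1]
    have h2 : AA (fun j => M.subtype (d' j)) x = cp (L.map (fun p => p.2.1))
        (List.ofFn fun j : Fin L.length => if x j then (p j).2.2 else 1) := by
      rw [cp_ofFn L (fun p => p.2.1)]
      unfold AA
      congr 2
      funext j
      by_cases hx : x j
      · simp only [hx, if_true]
        show ((cj M (p j).2.1 (d₀ j) : M) : G) = _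
        rw [cj_coe]
      · simp only [hx]
        simp
    rw [h2]
    refine hL.trB _ (by simp) ?_
    intro e he
    rw [List.mem_ofFn] at he
    obtain ⟨j, rfl⟩ := he
    split_ifs
    · exact hDT _ (hL.memD _ (hp j))
    · exact hone _
  refine ⟨n, fun i => cj M ((p i).1)⁻¹ (AA c' ε), hgood.toFinset, hlpos, ?_, ?_, ?_⟩
  · rw [Set.ncard_eq_toFinset_card _ hgood] at hε
    exact hε
  · intro i hi
    have := (Set.Finite.mem_toFinset hgood).1 hi
    exact this
  intro R
  have hcnt := cnt_thm M F n χ' b' hb' c' d' e1 e2 e3 ε R hgood.toFinset (by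
    intro i hi h1
    have h2 := (Set.Finite.mem_toFinset hgood).1 hi
    apply h2 1 Nat.one_pos
    rw [pow_one]
    exact Units.ext h1)
  refine hcnt.trans ?_
  have hmem : ∀ δ : Fin R → Fin n → Bool,
      ((((List.ofFn fun r => AA d' (δ r) * AA c' ε * (AA d' (δ r))⁻¹).prod :
        M)) : G) ∈ T ^ (54 * 2 ^ k * n * R) := by
    intro δ
    have h5 : ((((List.ofFn fun r => AA d' (δ r) * AA c' ε * (AA d' (δ r))⁻¹).prod :
        M)) : G) = (List.ofFn fun r => (((AA d' (δ r) * AA c' ε * (AA d' (δ r))⁻¹ :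
          M)) : G)).prod := by
      have := map_list_prod M.subtype
        (List.ofFn fun r => AA d' (δ r) * AA c' ε * (AA d' (δ r))⁻¹)
      rw [List.map_ofFn] at this
      exact this
    rw [h5]
    apply prod_mem_pow
    intro r
    refine Set.pow_subset_pow_right h1T (m := N + N + N) (by omega) ?_
    rw [pow_add, pow_add]
    exact Set.mul_mem_mul (Set.mul_mem_mul (hL2 _) (hL1 _)) (inv_mem_pow hT (hL2 _))
  have hfinT : Finite ↥(T ^ (54 * 2 ^ k * n * R)) := (finite_pow hfin _).to_subtype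
  have h9 : Nat.card (Set.range fun δ : Fin R → Fin n → Bool =>
      (List.ofFn fun r => AA d' (δ r) * AA c' ε * (AA d' (δ r))⁻¹).prod) ≤
      Nat.card ↥(T ^ (54 * 2 ^ k * n * R)) := by
    refine Nat.card_le_card_of_injective
      (fun x : Set.range _ => (⟨((x : M) : G), ?_⟩ : ↥(T ^ (54 * 2 ^ k * n * R)))) ?_
    · obtain ⟨_, δ, rfl⟩ := x
      exact hmem δ
    · intro x y hxy
      have h9 := congrArg (fun z : ↥(T ^ (54 * 2 ^ k * n * R)) => (z : G)) hxy
      exact Subtype.ext (Subtype.ext h9)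
  have h10 : Nat.card ↥(T ^ (54 * 2 ^ k * n * R)) ≤ (Nat.card ↥(T ^ (54 * 2 ^ k * R))) ^ n := by
    have h11 : 54 * 2 ^ k * n * R = n * (54 * 2 ^ k * R) := by ring
    rw [h11]
    exact Pool.Agent.TH555.FG.card_pow_mul T n (54 * 2 ^ k * R)
  have h12 : 0 < Nat.card (Set.range fun δ : Fin R → Fin n → Bool =>
      (List.ofFn fun r => AA d' (δ r) * AA c' ε * (AA d' (δ r))⁻¹).prod) := by
    rw [Nat.card_coe_set_eq]
    exact (Set.ncard_pos (Set.finite_range _)).2 (Set.range_nonempty _)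
  rw [← Real.log_pow]
  apply Real.log_le_log (by exact_mod_cast h12)
  exact_mod_cast h9.trans h10

end Pool.Agent.K9h73.MN
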